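import Pool.Agent.Q276.HL.Stm

/-! HL-FIN4: final assembly (helper176), adapted from `Pool.Agent.W382.HZ.FIN`. -/

namespace Pool.Agent.Q176.HL.FIN4

open Pool.Agent.W223.HZ Pool.Agent.Q276.HL

/-- cardinality of a finite union of sets of bounded cardinality -/
theorem bU {ι α : Type} (s : Finset ι) (A : ι → Set α) (B : ℝ) (hfin : ∀ j ∈ s, (A j).Finite)
    (h : ∀ j ∈ s, ((A j).ncard : ℝ) ≤ B) :
    (⋃ j ∈ s, A j).Finite ∧ ((⋃ j ∈ s, A j).ncard : ℝ) ≤ s.card * B := by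
  classical
  induction s using Finset.induction_on with
  | empty => simp
  | insert a s ha ih =>
    obtain ⟨h1, h2⟩ := ih (fun j hj => hfin j (Finset.mem_insert_of_mem hj))
      (fun j hj => h j (Finset.mem_insert_of_mem hj))
    rw [Finset.set_biUnion_insert]
    refine ⟨(hfin a (Finset.mem_insert_self _ _)).union h1, ?_⟩
    have h3 : ((A a ∪ ⋃ j ∈ s, A j).ncard : ℝ) ≤ (A a).ncard + (⋃ j ∈ s, A j).ncard := by
      exact_mod_cast Set.ncard_union_le _ _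
    have h4 := h a (Finset.mem_insert_self _ _)
    rw [Finset.card_insert_of_notMem ha]
    push_cast
    linarith

/-- the data of a point of large height -/
theorem mem (hR : StmtRED4) {R : ℝ} (hb : (20 : ℝ) ≤ R) {A B x y : ℤ} (hA : |(A : ℝ)| ≤ R ^ 2)
    (hB : |(B : ℝ)| ≤ R ^ 3) (hD : 4 * A ^ 3 + 27 * B ^ 2 ≠ 0)
    (hxy : y ^ 2 = x ^ 3 + A * x + B) (hx : (x : ℝ) ≤ Real.exp (R ^ ((1 : ℝ) / 5000)))
    (hx2 : 100 * R ^ 6 ≤ (x : ℝ)) :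
    ∃ (i j : ℕ) (a b c d e p q : ℤ), (i : ℝ) ≤ R ^ ((1 : ℝ) / 5000) ∧
      (j : ℝ) ≤ 3000 * R ^ ((1 : ℝ) / 1000) ∧ R ^ ((95 : ℝ) / 100) ≤ 2 ^ i ∧
      Real.log (2 ^ i) ≤ 1 / 2 * R ^ ((1 : ℝ) / 2500) ∧
      Good4 3000 R (2 ^ j / 2) (2 ^ i) a b c d e p q ∧
      (Ch2 3000 R (2 ^ j / 2) (2 ^ i) a b c d p q ∨ Ch1 3000 R (2 ^ j / 2) (2 ^ i) b c d e p q) ∧
      a ≠ 0 ∧ iI a b c d e = -4 * A ∧ iJ a b c d e = -4 * B := by
  have hR1 : (1 : ℝ) ≤ R := by linarith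
  have hR0 : (0 : ℝ) < R := by linarith
  have hx0 : (0 : ℝ) < x := lt_of_lt_of_le (by positivity) hx2
  obtain ⟨i, j, a, b, c, d, e, p, q, h4, h5, h6, h7, h8, h9, h9'⟩ :=
    hR R hb x |y| A B (by rw [sq_abs]; exact hxy) (abs_nonneg y) hA hB hD hx2
  have hlog : Real.log (2 ^ i) ≤ 1 / 4 * R ^ ((1 : ℝ) / 5000) := by
    have h10 : (2 : ℝ) ^ i ≤ √(√(x : ℝ)) := by
      refine h4.trans (Real.sqrt_le_sqrt (div_le_self (Real.sqrt_nonneg _) hR1))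
    have h11 : √(√(x : ℝ)) ≤ Real.exp (1 / 4 * R ^ ((1 : ℝ) / 5000)) := by
      rw [Real.sqrt_le_left (Real.exp_pos _).le, ← Real.exp_nat_mul,
        Real.sqrt_le_left (Real.exp_pos _).le, ← Real.exp_nat_mul]
      refine hx.trans (le_of_eq ?_)
      congr 1
      push_cast
      ring
    rw [Real.log_le_iff_le_exp (by positivity)]
    exact h10.trans h11
  have hpos5 : (0 : ℝ) < R ^ ((1 : ℝ) / 5000) := Real.rpow_pos_of_pos hR0 _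
  have hmono5 : R ^ ((1 : ℝ) / 5000) ≤ R ^ ((1 : ℝ) / 2500) :=
    Real.rpow_le_rpow_of_exponent_le hR1 (by norm_num)
  refine ⟨i, j, a, b, c, d, e, p, q, ?_, ?_, ?_, by linarith, h7, h8, h6, h9, h9'⟩
  · rw [Real.log_pow] at hlog
    have h10 := Real.log_two_gt_d9
    have h11 : (0 : ℝ) ≤ i := Nat.cast_nonneg i
    nlinarith
  · have ha := h7.ha
    have ha1 : (1 : ℝ) ≤ |(a : ℝ)| := by
      have : (1 : ℤ) ≤ |a| := Int.one_le_abs h6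
      exact_mod_cast this
    have h10 : ((2 : ℝ) ^ j / 2) ^ 4 ≤ 3000 * R := by
      refine le_trans ?_ ha
      have : (0 : ℝ) ≤ ((2 : ℝ) ^ j / 2) ^ 4 := by positivity
      nlinarith
    have h11 : (2 : ℝ) ^ j ≤ 48000 * R := by
      have h12 : (1 : ℝ) ≤ 2 ^ j := one_le_pow₀ (by norm_num)
      have h13 : (2 : ℝ) ^ j ≤ ((2 : ℝ) ^ j) ^ 4 := le_self_pow₀ h12 (by norm_num)
      have h14 : ((2 : ℝ) ^ j / 2) ^ 4 = ((2 : ℝ) ^ j) ^ 4 / 16 := by ring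
      rw [h14] at h10
      linarith
    have h12 : Real.log ((2 : ℝ) ^ j) ≤ Real.log (48000 * R) :=
      Real.log_le_log (by positivity) h11
    rw [Real.log_pow, Real.log_mul (by norm_num) hR0.ne'] at h12
    have h13 := Real.log_two_gt_d9
    have h14 : Real.log 48000 ≤ 11 := by
      rw [Real.log_le_iff_le_exp (by norm_num)]
      have h15 : (2.7182818283 : ℝ) < Real.exp 1 := Real.exp_one_gt_d9
      have h16 : Real.exp 11 = Real.exp 1 ^ 11 := by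
        rw [← Real.exp_nat_mul]
        norm_num
      rw [h16]
      have h17 : (2.7 : ℝ) ^ 11 ≤ Real.exp 1 ^ 11 := by
        gcongr
        linarith
      refine le_trans ?_ h17
      norm_num
    have h15 : Real.log R ≤ R ^ ((1 : ℝ) / 1000) / (1 / 1000) :=
      Real.log_le_rpow_div hR0.le (by norm_num)
    have h16 : (1 : ℝ) ≤ R ^ ((1 : ℝ) / 1000) := Real.one_le_rpow hR1 (by norm_num)
    have h17 : (0 : ℝ) ≤ j := Nat.cast_nonneg j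
    have h18 : (1 / 2 : ℝ) * j ≤ j * Real.log 2 := by nlinarith
    have h19 : R ^ ((1 : ℝ) / 1000) / (1 / 1000) = 1000 * R ^ ((1 : ℝ) / 1000) := by ring
    rw [h19] at h15
    nlinarith
  · have h10 : 10 * R ^ 3 ≤ √(x : ℝ) := by
      apply Real.le_sqrt_of_sq_le
      refine le_trans (le_of_eq ?_) hx2
      ring
    have h11 : 4 * R ^ 2 ≤ √(x : ℝ) / R := by
      rw [le_div_iff₀ hR0]
      have : (0 : ℝ) < R ^ 3 := by positivity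
      nlinarith
    have h12 : 2 * R ≤ √(√(x : ℝ) / R) := by
      apply Real.le_sqrt_of_sq_le
      refine le_trans (le_of_eq ?_) h11
      ring
    have h15 : (2 : ℝ) ^ (i + 1) = 2 * 2 ^ i := by ring
    rw [h15] at h5
    have h16 : R ^ ((95 : ℝ) / 100) ≤ R := by
      calc R ^ ((95 : ℝ) / 100) ≤ R ^ (1 : ℝ) :=
            Real.rpow_le_rpow_of_exponent_le hR1 (by norm_num)
        _ = R := Real.rpow_one R
    linarith

/-- the property of `StmtCNC4` -/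
def F1 (R T V : ℝ) (a b c d e : ℤ) : Prop :=
  ∃ p q : ℤ, Good4 3000 R T V a b c d e p q ∧
    (Ch2 3000 R T V a b c d p q ∨ Ch1 3000 R T V b c d e p q) ∧ a ≠ 0 ∧ ∀ t : ℤ, t ^ 4 ≠ a

/-- the property of `StmtCFP` -/
def F2 (R T : ℝ) (a b c d e : ℤ) : Prop := Box R T a b c d e ∧ a ≠ 0 ∧ ∃ t : ℤ, t ^ 4 = a

/-- the property of `StmtCLT4` -/
def F3 (R T : ℝ) (a b c d e : ℤ) : Prop := Box R T a b c d e ∧ a ≠ 0

/-- the conditional set of `StmtCNC4` -/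
def AN (R : ℝ) (ij : ℕ × ℕ) : Set (ℤ × ℤ) := {X | ((2 : ℝ) ^ ij.2 / 2 ≤ R ^ ((21 : ℝ) / 100) ∧
  R ^ ((95 : ℝ) / 100) ≤ (2 : ℝ) ^ ij.1 ∧
    Real.log ((2 : ℝ) ^ ij.1) ≤ 1 / 2 * R ^ ((1 : ℝ) / 2500)) ∧
  X ∈ pairs (F1 R (2 ^ ij.2 / 2) (2 ^ ij.1))}

/-- the conditional set of `StmtCFP` -/
def AC (R : ℝ) (j : ℕ) : Set (ℤ × ℤ) := {X | ((2 : ℝ) ^ j / 2 ≤ R ^ ((21 : ℝ) / 100)) ∧
  X ∈ pairs (F2 R (2 ^ j / 2))}

/-- the conditional set of `StmtCLT4` -/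
def AL (R : ℝ) (j : ℕ) : Set (ℤ × ℤ) := {X | (R ^ ((21 : ℝ) / 100) ≤ (2 : ℝ) ^ j / 2) ∧
  X ∈ pairs (F3 R (2 ^ j / 2))}

theorem half (j : ℕ) : (1 / 2 : ℝ) ≤ 2 ^ j / 2 := by
  have : (1 : ℝ) ≤ 2 ^ j := one_le_pow₀ (by norm_num)
  linarith

theorem AN_card {C R₀ R : ℝ} (hC : 1 ≤ C) (hR0 : 0 ≤ R) (hR : R₀ ≤ R)
    (hN : ∀ R T V : ℝ, R₀ ≤ R → 1 / 2 ≤ T →
      T ≤ R ^ ((21 : ℝ) / 100) → R ^ ((95 : ℝ) / 100) ≤ V →
      Real.log V ≤ 1 / 2 * R ^ ((1 : ℝ) / 2500) →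
      (pairs (F1 R T V)).Finite ∧
      ((pairs (F1 R T V)).ncard : ℝ) ≤ C * R ^ (5 - (1 : ℝ) / 22 + 1 / 300))
    (ij : ℕ × ℕ) : (AN R ij).Finite ∧
      ((AN R ij).ncard : ℝ) ≤ C * R ^ (5 - (1 : ℝ) / 22 + 1 / 300) := by
  by_cases h : (2 : ℝ) ^ ij.2 / 2 ≤ R ^ ((21 : ℝ) / 100) ∧
      R ^ ((95 : ℝ) / 100) ≤ (2 : ℝ) ^ ij.1 ∧
      Real.log ((2 : ℝ) ^ ij.1) ≤ 1 / 2 * R ^ ((1 : ℝ) / 2500)
  · obtain ⟨h1, h2⟩ := hN R (2 ^ ij.2 / 2) (2 ^ ij.1) hR (half _) h.1 h.2.1 h.2.2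
    have hs : AN R ij ⊆ _ := fun k hk => hk.2
    refine ⟨h1.subset hs, le_trans ?_ h2⟩
    exact_mod_cast Set.ncard_le_ncard hs h1
  · have he : AN R ij = ∅ := Set.eq_empty_of_forall_notMem fun k hk => h hk.1
    rw [he]
    refine ⟨Set.finite_empty, ?_⟩
    rw [Set.ncard_empty]
    have : (0 : ℝ) ≤ R ^ (5 - (1 : ℝ) / 22 + 1 / 300) := Real.rpow_nonneg hR0 _
    push_cast
    nlinarith

/-- the set of the result -/
def Ex (M R : ℝ) : Set (ℤ × ℤ) :=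
  {X : ℤ × ℤ | |(X.1 : ℝ)| ≤ R ^ 2 ∧ |(X.2 : ℝ)| ≤ R ^ 3 ∧ 4 * X.1 ^ 3 + 27 * X.2 ^ 2 ≠ 0 ∧
    ∃ x y : ℤ, y ^ 2 = x ^ 3 + X.1 * x + X.2 ∧ M * R ^ 6 ≤ (x : ℝ) ∧
      (x : ℝ) ≤ Real.exp (R ^ ((1 : ℝ) / 5000))}

theorem large (hR : StmtRED4) (hN : StmtCNC4) (hC : StmtCFP)
    (hL : StmtCLT4) : ∃ M R₁ : ℝ, 0 ≤ M ∧ 1 ≤ R₁ ∧ ∀ M' R : ℝ, 100 ≤ M' → R₁ ≤ R →
    ((Ex M' R).ncard : ℝ) ≤ M * R ^ (5 - (1 : ℝ) / 50) := by
  classical
  obtain ⟨C4, R0, hC4, hR0, hN⟩ := hN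
  obtain ⟨C2, hC2, hC⟩ := hC
  obtain ⟨C3, hC3, hL⟩ := hL
  refine ⟨3001 * C3 + 3001 * C2 + 6002 * C4, max R0 20, by positivity,
    le_trans hR0 (le_max_left _ _), fun M' R hM' hRR => ?_⟩
  have hb : (20 : ℝ) ≤ R := le_trans (le_max_right _ _) hRR
  have hRR0 : R0 ≤ R := le_trans (le_max_left _ _) hRR
  have hR1 : (1 : ℝ) ≤ R := by linarith
  have hRpos : (0 : ℝ) < R := by linarith
  have hpow : ∀ s : ℝ, 0 < R ^ s := fun s => Real.rpow_pos_of_pos hRpos s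
  set I := ⌊R ^ ((1 : ℝ) / 5000)⌋₊ with hI
  set J := ⌊3000 * R ^ ((1 : ℝ) / 1000)⌋₊ with hJ
  have hI1 : ((I + 1 : ℕ) : ℝ) ≤ 2 * R ^ ((1 : ℝ) / 5000) := by
    have h1 := Nat.floor_le (hpow ((1 : ℝ) / 5000)).le
    have h2 : (1 : ℝ) ≤ R ^ ((1 : ℝ) / 5000) := Real.one_le_rpow hR1 (by norm_num)
    push_cast
    rw [← hI] at h1
    linarith
  have hJ1 : ((J + 1 : ℕ) : ℝ) ≤ 3001 * R ^ ((1 : ℝ) / 1000) := by
    have h1 := Nat.floor_le (show (0 : ℝ) ≤ 3000 * R ^ ((1 : ℝ) / 1000) by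
      have := hpow ((1 : ℝ) / 1000)
      positivity)
    have h2 : (1 : ℝ) ≤ R ^ ((1 : ℝ) / 1000) := Real.one_le_rpow hR1 (by norm_num)
    push_cast
    rw [← hJ] at h1
    linarith
  -- the sets
  obtain ⟨hLf, hLc⟩ := bU (Finset.range (J + 1)) (AL R) (C3 * R ^ ((49 : ℝ) / 10))
    (fun j _ => by
      by_cases h : R ^ ((21 : ℝ) / 100) ≤ (2 : ℝ) ^ j / 2
      · exact (hL R (2 ^ j / 2) hR1 h).1.subset fun k hk => hk.2
      · exact Set.finite_empty.subset fun k hk => absurd hk.1 h)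
    (fun j _ => by
      by_cases h : R ^ ((21 : ℝ) / 100) ≤ (2 : ℝ) ^ j / 2
      · obtain ⟨h1, h2⟩ := hL R (2 ^ j / 2) hR1 h
        have hs : AL R j ⊆ _ := fun k hk => hk.2
        refine le_trans ?_ h2
        exact_mod_cast Set.ncard_le_ncard hs h1
      · have he : AL R j = ∅ := Set.eq_empty_of_forall_notMem fun k hk => h hk.1
        rw [he, Set.ncard_empty]
        have := hpow ((49 : ℝ) / 10)
        push_cast
        positivity)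
  obtain ⟨hCf, hCc⟩ := bU (Finset.range (J + 1)) (AC R) (C2 * R ^ ((49 : ℝ) / 10))
    (fun j _ => by
      by_cases h : (2 : ℝ) ^ j / 2 ≤ R ^ ((21 : ℝ) / 100)
      · exact (hC R (2 ^ j / 2) hR1 (half j) h).1.subset fun k hk => hk.2
      · exact Set.finite_empty.subset fun k hk => absurd hk.1 h)
    (fun j _ => by
      by_cases h : (2 : ℝ) ^ j / 2 ≤ R ^ ((21 : ℝ) / 100)
      · obtain ⟨h1, h2⟩ := hC R (2 ^ j / 2) hR1 (half j) h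
        have hs : AC R j ⊆ _ := fun k hk => hk.2
        refine le_trans ?_ h2
        exact_mod_cast Set.ncard_le_ncard hs h1
      · have he : AC R j = ∅ := Set.eq_empty_of_forall_notMem fun k hk => h hk.1
        rw [he, Set.ncard_empty]
        have := hpow ((49 : ℝ) / 10)
        push_cast
        positivity)
  obtain ⟨hNf, hNc⟩ := bU (Finset.range (I + 1) ×ˢ Finset.range (J + 1)) (AN R)
    (C4 * R ^ (5 - (1 : ℝ) / 22 + 1 / 300))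
    (fun ij _ => (AN_card hC4 hRpos.le hRR0 hN ij).1)
    (fun ij _ => (AN_card hC4 hRpos.le hRR0 hN ij).2)
  rw [Finset.card_range] at hLc hCc
  rw [Finset.card_product, Finset.card_range, Finset.card_range] at hNc
  set UL := ⋃ j ∈ Finset.range (J + 1), AL R j with hUL
  set UC := ⋃ j ∈ Finset.range (J + 1), AC R j with hUC
  set UN := ⋃ ij ∈ Finset.range (I + 1) ×ˢ Finset.range (J + 1), AN R ij with hUN
  have hfin : (UL ∪ (UC ∪ UN)).Finite := hLf.union (hCf.union hNf)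
  have hsub : Ex M' R ⊆ UL ∪ (UC ∪ UN) := by
    rintro X ⟨hA, hB, hD, x, y, hxy, hx1, hx2⟩
    have hx3 : 100 * R ^ 6 ≤ (x : ℝ) := by
      refine le_trans ?_ hx1
      have : (0 : ℝ) < R ^ 6 := by positivity
      nlinarith
    obtain ⟨i, j, a, b, c, d, e, p, q, hi, hj, h3, h4, h5, h6, h7, h8, h9⟩ :=
      mem hR hb hA hB hD hxy hx2 hx3
    have hi' : i ∈ Finset.range (I + 1) :=
      Finset.mem_range.2 (Nat.lt_succ_of_le (Nat.le_floor hi))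
    have hj' : j ∈ Finset.range (J + 1) :=
      Finset.mem_range.2 (Nat.lt_succ_of_le (Nat.le_floor hj))
    have hbox : Box R (2 ^ j / 2) a b c d e := ⟨h5.ha, h5.hb, h5.hc, h5.hd, h5.he⟩
    rcases le_total ((2 : ℝ) ^ j / 2) (R ^ ((21 : ℝ) / 100)) with hT | hT
    · right
      by_cases hcube : ∃ t : ℤ, t ^ 4 = a
      · left
        rw [hUC]
        refine Set.mem_biUnion hj' ?_
        exact ⟨hT, a, b, c, d, e, ⟨hbox, h7, hcube⟩, h8, h9⟩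
      · right
        rw [hUN]
        refine Set.mem_biUnion (Finset.mem_product.2 ⟨hi', hj'⟩ : (i, j) ∈ _) ?_
        exact ⟨⟨hT, h3, h4⟩, a, b, c, d, e,
          ⟨p, q, h5, h6, h7, fun t ht => hcube ⟨t, ht⟩⟩, h8, h9⟩
    · left
      rw [hUL]
      refine Set.mem_biUnion hj' ?_
      exact ⟨hT, a, b, c, d, e, ⟨hbox, h7⟩, h8, h9⟩
  have hcard : ((Ex M' R).ncard : ℝ) ≤ UL.ncard + (UC.ncard + UN.ncard) := by
    have h1 := Set.ncard_le_ncard hsub hfin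
    have h4 := Set.ncard_union_le UL (UC ∪ UN)
    have h5 := Set.ncard_union_le UC UN
    have h6 : (Ex M' R).ncard ≤ UL.ncard + (UC.ncard + UN.ncard) := by omega
    have h7 : (((Ex M' R).ncard : ℕ) : ℝ) ≤
        ((UL.ncard + (UC.ncard + UN.ncard) : ℕ) : ℝ) := Nat.cast_le.2 h6
    refine h7.trans (le_of_eq ?_)
    simp only [Nat.cast_add]
  refine hcard.trans ?_
  -- bounds
  have hmono : ∀ s : ℝ, s ≤ 5 - (1 : ℝ) / 50 → R ^ s ≤ R ^ (5 - (1 : ℝ) / 50) := fun s hs =>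
    Real.rpow_le_rpow_of_exponent_le hR1 hs
  have b3 : (UL.ncard : ℝ) ≤ 3001 * C3 * R ^ (5 - (1 : ℝ) / 50) := by
    refine hLc.trans ?_
    have h1 := hpow ((49 : ℝ) / 10)
    have h2 : R ^ ((1 : ℝ) / 1000) * R ^ ((49 : ℝ) / 10) ≤ R ^ (5 - (1 : ℝ) / 50) := by
      rw [← Real.rpow_add hRpos]
      exact hmono _ (by norm_num)
    calc ((J + 1 : ℕ) : ℝ) * (C3 * R ^ ((49 : ℝ) / 10))
        ≤ (3001 * R ^ ((1 : ℝ) / 1000)) * (C3 * R ^ ((49 : ℝ) / 10)) :=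
          mul_le_mul_of_nonneg_right hJ1 (by positivity)
      _ = 3001 * C3 * (R ^ ((1 : ℝ) / 1000) * R ^ ((49 : ℝ) / 10)) := by ring
      _ ≤ 3001 * C3 * R ^ (5 - (1 : ℝ) / 50) := mul_le_mul_of_nonneg_left h2 (by positivity)
  have b4 : (UC.ncard : ℝ) ≤ 3001 * C2 * R ^ (5 - (1 : ℝ) / 50) := by
    refine hCc.trans ?_
    have h1 := hpow ((49 : ℝ) / 10)
    have h2 : R ^ ((1 : ℝ) / 1000) * R ^ ((49 : ℝ) / 10) ≤ R ^ (5 - (1 : ℝ) / 50) := by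
      rw [← Real.rpow_add hRpos]
      exact hmono _ (by norm_num)
    calc ((J + 1 : ℕ) : ℝ) * (C2 * R ^ ((49 : ℝ) / 10))
        ≤ (3001 * R ^ ((1 : ℝ) / 1000)) * (C2 * R ^ ((49 : ℝ) / 10)) :=
          mul_le_mul_of_nonneg_right hJ1 (by positivity)
      _ = 3001 * C2 * (R ^ ((1 : ℝ) / 1000) * R ^ ((49 : ℝ) / 10)) := by ring
      _ ≤ 3001 * C2 * R ^ (5 - (1 : ℝ) / 50) := mul_le_mul_of_nonneg_left h2 (by positivity)
  have b5 : (UN.ncard : ℝ) ≤ 6002 * C4 * R ^ (5 - (1 : ℝ) / 50) := by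
    refine hNc.trans ?_
    have h1 := hpow (5 - (1 : ℝ) / 22 + 1 / 300)
    have h3 := hpow ((1 : ℝ) / 5000)
    have h4 := hpow ((1 : ℝ) / 1000)
    have h2 : R ^ ((1 : ℝ) / 5000) * R ^ ((1 : ℝ) / 1000) * R ^ (5 - (1 : ℝ) / 22 + 1 / 300) ≤
        R ^ (5 - (1 : ℝ) / 50) := by
      rw [← Real.rpow_add hRpos, ← Real.rpow_add hRpos]
      exact hmono _ (by norm_num)
    have h5 : (((I + 1) * (J + 1) : ℕ) : ℝ) ≤
        (2 * R ^ ((1 : ℝ) / 5000)) * (3001 * R ^ ((1 : ℝ) / 1000)) := by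
      rw [Nat.cast_mul]
      exact mul_le_mul hI1 hJ1 (by positivity) (by positivity)
    calc (((I + 1) * (J + 1) : ℕ) : ℝ) * (C4 * R ^ (5 - (1 : ℝ) / 22 + 1 / 300))
        ≤ ((2 * R ^ ((1 : ℝ) / 5000)) * (3001 * R ^ ((1 : ℝ) / 1000))) *
            (C4 * R ^ (5 - (1 : ℝ) / 22 + 1 / 300)) :=
          mul_le_mul_of_nonneg_right h5 (by positivity)
      _ = 6002 * C4 * (R ^ ((1 : ℝ) / 5000) * R ^ ((1 : ℝ) / 1000) *
            R ^ (5 - (1 : ℝ) / 22 + 1 / 300)) := by ring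
      _ ≤ 6002 * C4 * R ^ (5 - (1 : ℝ) / 50) := mul_le_mul_of_nonneg_left h2 (by positivity)
  linarith

theorem fin4 (hR : StmtRED4) (hC : StmtCNC4) (hF : StmtCFP) (hL : StmtCLT4) : StmtFIN4 := by
  obtain ⟨M, R₁, hM, hR₁, h⟩ := large hR hC hF hL
  refine ⟨M + 100 + Real.exp (R₁ ^ ((1 : ℝ) / 5000)), fun R hR1 => ?_⟩
  have hexp : 0 < Real.exp (R₁ ^ ((1 : ℝ) / 5000)) := Real.exp_pos _
  have hR0 : (0 : ℝ) < R := by linarith
  have hpow : 0 < R ^ (5 - (1 : ℝ) / 50) := Real.rpow_pos_of_pos hR0 _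
  by_cases hc : R < R₁
  · have he : Ex (M + 100 + Real.exp (R₁ ^ ((1 : ℝ) / 5000))) R = ∅ := by
      refine Set.eq_empty_of_forall_notMem fun X hX => ?_
      obtain ⟨-, -, -, x, y, -, hx1, hx2⟩ := hX
      have h1 : Real.exp (R ^ ((1 : ℝ) / 5000)) ≤ Real.exp (R₁ ^ ((1 : ℝ) / 5000)) :=
        Real.exp_le_exp.2 (Real.rpow_le_rpow hR0.le hc.le (by norm_num))
      have h2 : (1 : ℝ) ≤ R ^ 6 := one_le_pow₀ hR1
      nlinarith
    have h3 : ((Ex (M + 100 + Real.exp (R₁ ^ ((1 : ℝ) / 5000))) R).ncard : ℝ) = 0 := by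
      rw [he, Set.ncard_empty]
      simp
    refine le_trans (le_of_eq h3) ?_
    positivity
  · push Not at hc
    refine (h (M + 100 + Real.exp (R₁ ^ ((1 : ℝ) / 5000))) R (by linarith) hc).trans ?_
    nlinarith

end Pool.Agent.Q176.HL.FIN4
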